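import Pool.Agent.helper37.NE.SpecA
import Pool.Agent.helper79.ND.KCO

/-!
# Row ne:YKC (MP_baa4d7_al)
-/

set_option autoImplicit false

namespace Pool.Agent.NE

open Pool.Agent.helper58.DC Pool.Agent.DI Pool.Agent.GR Pool.Agent.OB Pool.Agent.DR Pool.Agent.FI Pool.Agent.FI3 Pool.Agent.FI4 Pool.Agent.FI4I Pool.Agent.LE Pool.Agent.L5 Pool.Agent.NAB Pool.Agent.ND

section

variable {X A : Type} [Group A] {K : Subgroup A} {act : A → X → X} {r : X → X → Prop} {b : ℕ}
  {I J : Type} {cl : X → I} {θ : I → X} {f : J → I} {y : J → X} {s : I → ℕ}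

theorem YKC_sym (h : Acn K act r b) (x z : X) : (∃ t, act t x = z) ↔ ∃ t, act t z = x := by
  constructor
  · rintro ⟨t, ht⟩
    exact ⟨t⁻¹, KCO_inv h ht⟩
  · rintro ⟨t, ht⟩
    exact ⟨t⁻¹, KCO_inv h ht⟩

open Classical in
theorem YKC_RO (h : Acn K act r b) (d : X → X → ℤ) (t : A) (x₀ : X) :
    RO act r d (act t x₀) ↔ RO act r d x₀ := by
  unfold RO
  simp only [KCO_orb h]

open Classical in
/-- the orbit is determined by the function -/
theorem YKC_uni [Finite X] [Finite A] (h : Acn K act r b) (d : X → X → ℤ) (x₀ x₁ : X)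
    (h0 : RO act r d x₀) (h1 : RO act r d x₁) : ∃ t, act t x₁ = x₀ := by
  have := Fintype.ofFinite X
  by_contra hc
  obtain ⟨ε, hε, he⟩ := h0
  obtain ⟨ε', hε', he'⟩ := h1
  have hb1 : Nat.card {y // r x₀ y ∧ ∃ t, act t x₀ = y} ≤ b := KCO_fib h x₀ x₀ (h.eqv.refl _)
  have hb2 : Nat.card {y // r x₀ y ∧ ∃ t, act t x₁ = y} ≤ b := by
    by_cases hex : ∃ t, r x₀ (act t x₁)
    · obtain ⟨t, ht⟩ := hex
      have e := KCO_fib h x₀ (act t x₁) ht
      have e2 : Nat.card {y // r x₀ y ∧ ∃ t, act t x₁ = y} =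
          Nat.card {y // r x₀ y ∧ ∃ τ, act τ (act t x₁) = y} :=
        Nat.card_congr (Equiv.subtypeEquivRight fun y => by rw [KCO_orb h])
      rw [e2]
      exact e
    · have : IsEmpty {y // r x₀ y ∧ ∃ t, act t x₁ = y} := ⟨fun p => by
        obtain ⟨y, hy, t, ht⟩ := p
        exact hex ⟨t, by rw [ht]; exact hy⟩⟩
      rw [Nat.card_of_isEmpty]
      exact Nat.zero_le _
  have hex : ∃ y, r x₀ y ∧ (¬ ∃ t, act t x₀ = y) ∧ ¬ ∃ t, act t x₁ = y := by
    by_contra hn
    have h2 : Nat.card {y // r x₀ y} ≤ Nat.card {y // r x₀ y ∧ ∃ t, act t x₀ = y} +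
        Nat.card {y // r x₀ y ∧ ∃ t, act t x₁ = y} := by
      simp only [Nat.card_eq_fintype_card, Fintype.card_subtype]
      refine le_trans (Finset.card_le_card ?_) (Finset.card_union_le _ _)
      intro y hy
      have hy' : r x₀ y := (Finset.mem_filter.1 hy).2
      by_cases h3 : ∃ t, act t x₀ = y
      · exact Finset.mem_union_left _ (Finset.mem_filter.2 ⟨Finset.mem_univ _, hy', h3⟩)
      · by_cases h4 : ∃ t, act t x₁ = y
        · exact Finset.mem_union_right _ (Finset.mem_filter.2 ⟨Finset.mem_univ _, hy', h4⟩)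
        · exact absurd ⟨y, hy', h3, h4⟩ hn
    have h3 := h.sz x₀
    have h4 : b * (b + 3) = b * b + 3 * b := by ring
    have h5 : 0 ≤ b * b := Nat.zero_le _
    omega
  obtain ⟨z, hz, hz0, hz1⟩ := hex
  have e1 := he x₀ z hz
  have e2 := he' x₀ z hz
  rw [if_pos ⟨1, h.one x₀⟩, if_neg hz0] at e1
  rw [if_neg hc, if_neg hz1] at e2
  rcases hε with rfl | rfl
  · omega
  · omega

open Classical in
theorem YKC_T (h : Acn K act r b) (j : J) (d : X → X → ℤ) (e : ℤ) (he : e = 1 ∨ e = -1)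
    (hD : d = fun x x' => -e * KCO_T act r y j x x') : RO act r d (y j) := by
  refine ⟨e, he, fun x x' hx => ?_⟩
  rw [hD]
  show -e * KCO_T act r y j x x' = _
  unfold KCO_T
  rw [if_pos hx]
  simp only [YKC_sym h (y j)]
  ring

open Classical in
theorem YKC_U (hd : KCO_Dat K act r cl θ f y s) (h : Acn K act r b) (i : I) (d : X → X → ℤ) (e : ℤ)
    (he : e = 1 ∨ e = -1) (hD : ∀ x x', d x x' = e * KCO_U act r cl θ i x x') : RO act r d (θ i) := by
  refine ⟨e, he, fun x x' hx => ?_⟩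
  rw [hD]
  refine congrArg (fun z => e * z) ?_
  unfold KCO_U
  simp only [YKC_sym h (θ i)]
  by_cases hc : cl x = i
  · rw [if_pos (show r x x' ∧ cl x = i from ⟨hx, hc⟩)]
    by_cases h1 : ∃ t, act t x = θ i
    · by_cases h2 : ∃ t, act t x' = θ i
      · rw [if_pos h1, if_pos h1, if_pos h2, if_pos h2]
        ring
      · rw [if_pos h1, if_pos h1, if_neg h2, if_neg h2]
    · by_cases h2 : ∃ t, act t x' = θ i
      · rw [if_neg h1, if_neg h1, if_pos h2, if_pos h2]
      · rw [if_neg h1, if_neg h1, if_neg h2, if_neg h2]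
        ring
  · rw [if_neg (show ¬ (r x x' ∧ cl x = i) from fun hh => hc hh.2)]
    have h1 : ¬ ∃ t, act t x = θ i := by
      rintro ⟨t, ht⟩
      apply hc
      rw [← KCO_cla hd h t x, ht, hd.clθ]
    have h2 : ¬ ∃ t, act t x' = θ i := by
      rintro ⟨t, ht⟩
      apply hc
      rw [KCO_clr hd h hx, ← KCO_cla hd h t x', ht, hd.clθ]
    rw [if_neg h1, if_neg h2]
    ring

/-- stabilisers of points of one orbit -/
theorem YKC_conj (h : Acn K act r b) (t : A) (x z : X) (e : act t x = z) :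
    Nat.card {u // act u x = x} = Nat.card {u // act u z = z} := by
  refine Nat.card_congr (Equiv.subtypeEquiv (MulAut.conj t).toEquiv fun u => ?_)
  show act u x = x ↔ act (t * u * t⁻¹) z = z
  have e1 : act t⁻¹ z = x := KCO_inv h e
  rw [h.mul, h.mul, e1]
  constructor
  · intro hu
    rw [hu, e]
  · intro hu
    have h2 := congrArg (act t⁻¹) hu
    rw [← h.mul, inv_mul_cancel, h.one, e1] at h2
    exact h2

end

/-- **Row YKC.** -/
theorem YKC (hKCH : Pool.Agent.ND.KCH_stmt) : YKC_stmt := by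
  classical
  intro X A _ _ _ K act r b h
  obtain ⟨I, J, cl, θ, f, y, s, hI, hJ, hd⟩ := KCO_data X A K act r b h
  have := Fintype.ofFinite I
  have := Fintype.ofFinite J
  refine ⟨∑ i, s i + Fintype.card J, ?_⟩
  intro Ψ _ w D hS hnv
  have := Fintype.ofFinite Ψ
  obtain ⟨Y, ε, a, hε, ha, hv, hYa, hYY⟩ := hKCH Ψ I J f (fun i => (s i : ℤ)) (fun j ψ => D ψ (θ (f j)) (y j)) w hS.wp
    (fun i => by exact_mod_cast hd.s1 i) (fun j => hS.dg _ _ (hd.ry j)) (fun j k => KCO_gram hd h hS j k)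
    (fun i i' => by exact_mod_cast hd.big i i')
  have hYY' : ∀ i, ∑ ψ, Y i ψ * Y i ψ = (s i : ℤ) := by
    intro i
    have e := hYY i i
    rw [if_pos rfl, finsum_eq_sum_of_fintype] at e
    exact e
  have hDa : ∀ j0, D (a j0) = fun x x' => -ε (f j0) * KCO_T act r y j0 x x' := by
    intro j0
    refine KCO_Da hd h hS (a j0) j0 (ε (f j0)) fun j => ?_
    have e1 : D (a j0) (θ (f j)) (y j) = Y (f j) (a j0) - ε (f j) * (if a j0 = a j then 1 else 0) := hv j (a j0)
    rw [e1, hYa]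
    by_cases hj : j = j0
    · rw [if_pos hj, hj, if_pos rfl]
      ring
    · rw [if_neg hj, if_neg (fun e => hj (ha e).symm)]
      ring
  have hDn : ∀ ψ, (∀ j, a j ≠ ψ) → ∀ x x', D ψ x x' = Y (cl x) ψ * KCO_U act r cl θ (cl x) x x' := by
    intro ψ hψ x x'
    refine KCO_Dn hd h hS ψ (fun i => Y i ψ) (fun j => ?_) x x'
    have e1 : D ψ (θ (f j)) (y j) = Y (f j) ψ - ε (f j) * (if ψ = a j then 1 else 0) := hv j ψ
    rw [e1, if_neg (fun e => hψ j e.symm)]
    ring
  have hnv' : ∀ ψ, (∀ j, a j ≠ ψ) → ∃ i, Y i ψ ≠ 0 := by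
    intro ψ hψ
    obtain ⟨x, x', hx⟩ := hnv ψ
    refine ⟨cl x, fun e => hx ?_⟩
    rw [hDn ψ hψ, e, zero_mul]
  obtain ⟨hc1, hc2, hc3⟩ := KCO_count s Y a ha hYa hYY' hnv'
  have hjex : ∀ i, ∃ j, f j = i := by
    intro i
    have e1 := hd.big i i
    have e2 : 0 < Nat.card {j // f j = i} := by omega
    obtain ⟨⟨j, hj⟩⟩ := (Nat.card_pos_iff.1 e2).1
    exact ⟨j, hj⟩
  have hval : ∀ ψ, (∀ j, a j ≠ ψ) → ∀ j, D ψ (θ (f j)) (y j) = Y (f j) ψ := by
    intro ψ hψ j
    have e1 : D ψ (θ (f j)) (y j) = Y (f j) ψ - ε (f j) * (if ψ = a j then 1 else 0) := hv j ψ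
    rw [e1, if_neg (fun e => hψ j e.symm)]
    ring
  rw [Nat.card_eq_fintype_card]
  refine ⟨hc1, ?_, ?_⟩
  · intro q1 q2
    refine hc2 fun ψ hψ => ?_
    by_cases hz : ∃ i, Y i ψ ≠ 0
    · obtain ⟨i, hi⟩ := hz
      have huni : ∀ k, k ≠ i → Y k ψ * Y k ψ = 0 := by
        intro k hk
        by_contra hc
        have hk0 : Y k ψ ≠ 0 := fun e => hc (by rw [e, mul_zero])
        obtain ⟨j, hj⟩ := hjex i
        obtain ⟨j', hj'⟩ := hjex k
        obtain ⟨t, ht⟩ := q2 ψ (θ (f j)) (y j) (θ (f j')) (y j') (by rw [hval ψ hψ, hj]; exact hi) (by rw [hval ψ hψ, hj']; exact hk0)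
        have e1 := (hd.cle _ _).2 ⟨t, ht⟩
        rw [hd.clθ, hd.clθ, hj, hj'] at e1
        exact hk e1.symm
      rw [Finset.sum_eq_single i (fun k _ hk => huni k hk) (fun hc => absurd (Finset.mem_univ i) hc)]
      obtain ⟨j, hj⟩ := hjex i
      have e2 := q1 ψ (θ (f j)) (y j)
      rw [hval ψ hψ, hj] at e2
      have e3 := abs_le.1 e2
      nlinarith [e3.1, e3.2]
    · push Not at hz
      have e1 : ∑ i, Y i ψ * Y i ψ = 0 := Finset.sum_eq_zero fun i _ => by rw [hz i, mul_zero]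
      rw [e1]
      exact zero_le_one
  · intro hcard
    have h1 := hc3 hcard
    have hRa : ∀ j, RO act r (D (a j)) (y j) := fun j => YKC_T h j _ (ε (f j)) (hε (f j)) (hDa j)
    have hRn : ∀ ψ, (∀ j, a j ≠ ψ) → ∃ i, (Y i ψ = 1 ∨ Y i ψ = -1) ∧ (∀ k, k ≠ i → Y k ψ = 0) ∧ RO act r (D ψ) (θ i) := by
      intro ψ hψ
      obtain ⟨i, hi, hi'⟩ := KCO_sq (fun i => Y i ψ) (h1 ψ hψ)
      refine ⟨i, hi, hi', YKC_U hd h i _ (Y i ψ) hi fun x x' => ?_⟩
      rw [hDn ψ hψ]
      by_cases hx : cl x = i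
      · rw [hx]
      · rw [hi' _ hx, zero_mul]
        unfold KCO_U
        rw [if_neg (fun hc => hx hc.2), mul_zero]
    refine ⟨fun ψ => ?_, fun x₀ => ?_⟩
    · by_cases hψ : ∃ j, a j = ψ
      · obtain ⟨j, rfl⟩ := hψ
        exact ⟨y j, hRa j⟩
      · obtain ⟨i, -, -, hi⟩ := hRn ψ (fun j e => hψ ⟨j, e⟩)
        exact ⟨θ i, hi⟩
    · rcases hd.cov x₀ with ⟨t, ht⟩ | ⟨j, t, ht⟩
      · -- the fixed points
        have e1 : Nat.card {ψ // RO act r (D ψ) x₀} = Nat.card {ψ // Y (cl x₀) ψ ≠ 0} := by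
          refine Nat.card_congr (Equiv.subtypeEquivRight fun ψ => ?_)
          rw [← YKC_RO h (D ψ) t x₀, ht]
          constructor
          · intro hR
            by_cases hψ : ∃ j, a j = ψ
            · obtain ⟨j, rfl⟩ := hψ
              obtain ⟨u, hu⟩ := YKC_uni h _ _ _ hR (hRa j)
              exact absurd hu (hd.ne j _ u)
            · obtain ⟨i, hi, -, hi2⟩ := hRn ψ (fun j e => hψ ⟨j, e⟩)
              obtain ⟨u, hu⟩ := YKC_uni h _ _ _ hR hi2
              have e2 := congrArg cl hu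
              rw [KCO_cla hd h, hd.clθ, hd.clθ] at e2
              rw [← e2]
              rcases hi with e | e
              · rw [e]; exact one_ne_zero
              · rw [e]; exact neg_ne_zero.2 one_ne_zero
          · intro hY
            have hψ : ∀ j, a j ≠ ψ := by
              intro j e
              rw [← e] at hY
              exact hY (hYa _ _)
            obtain ⟨i, hi, hi1, hi2⟩ := hRn ψ hψ
            have e2 : cl x₀ = i := by
              by_contra hne
              exact hY (hi1 _ hne)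
            rw [e2]
            exact hi2
        have e2 : (Nat.card {ψ // Y (cl x₀) ψ ≠ 0} : ℤ) = (s (cl x₀) : ℤ) := by
          rw [← KCO_cnt Ψ, ← hYY' (cl x₀)]
          refine Finset.sum_congr rfl fun ψ _ => ?_
          by_cases hY : Y (cl x₀) ψ = 0
          · rw [if_neg (fun hh => hh hY), hY, mul_zero]
          · rw [if_pos hY]
            have hψ : ∀ j, a j ≠ ψ := by
              intro j e
              rw [← e] at hY
              exact hY (hYa _ _)
            obtain ⟨i, hi, hi1, hi2⟩ := hRn ψ hψ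
            have e2 : cl x₀ = i := by
              by_contra hne
              exact hY (hi1 _ hne)
            rw [e2]
            rcases hi with e | e
            · rw [e]; ring
            · rw [e]; ring
        have e3 : Nat.card {ψ // Y (cl x₀) ψ ≠ 0} = s (cl x₀) := by exact_mod_cast e2
        rw [e1, e3, YKC_conj h t x₀ _ ht, hd.cs, mul_comm]
      · -- the other points
        have e1 : Nat.card {ψ // RO act r (D ψ) x₀} = Nat.card {ψ // ψ = a j} := by
          refine Nat.card_congr (Equiv.subtypeEquivRight fun ψ => ?_)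
          rw [← YKC_RO h (D ψ) t x₀, ht]
          constructor
          · intro hR
            by_cases hψ : ∃ j, a j = ψ
            · obtain ⟨j', rfl⟩ := hψ
              obtain ⟨u, hu⟩ := YKC_uni h _ _ _ hR (hRa j')
              rw [hd.inj _ _ _ hu]
            · obtain ⟨i, hi, -, hi2⟩ := hRn ψ (fun j e => hψ ⟨j, e⟩)
              obtain ⟨u, hu⟩ := YKC_uni h _ _ _ hR hi2
              exact absurd (KCO_inv h hu) (hd.ne j i u⁻¹)
          · rintro rfl
            exact hRa j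
        have e2 : Nat.card {u : A // act u (y j) = y j} = Nat.card K := by
          refine Nat.card_congr (Equiv.subtypeEquivRight fun u => ?_)
          exact ⟨fun e => hd.free j u e, fun e => h.triv u e _⟩
        rw [e1, YKC_conj h t x₀ _ ht, e2]
        have e3 : Nat.card {ψ // ψ = a j} = 1 := Nat.card_unique
        rw [e3, mul_one]

end Pool.Agent.NE
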